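import Mathlib

/-! The discriminant of a product of two cubic polynomials. -/

namespace Pool.Agent.Helper38.GQ

open Polynomial

/-- The discriminant of a product of monic polynomials, up to sign. -/
theorem discr_mul {R : Type} [CommRing R] [Nontrivial R] {p q : R[X]} (hp : p.Monic) (hq : q.Monic)
    (hp0 : 0 < p.natDegree) (hq0 : 0 < q.natDegree)
    (hp1 : p.derivative.natDegree = p.natDegree - 1)
    (hq1 : q.derivative.natDegree = q.natDegree - 1) :
    Associated (p * q).discr
      (p.discr * q.discr * resultant p q p.natDegree q.natDegree ^ 2) := by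
  have hpq : (p * q).Monic := hp.mul hq
  have hdeg : (p * q).natDegree = p.natDegree + q.natDegree := hp.natDegree_mul hq
  have h1 := resultant_deriv (f := p * q) (by
    rw [← natDegree_pos_iff_degree_pos, hdeg]; omega)
  have h2 := resultant_deriv (f := p) (by rw [← natDegree_pos_iff_degree_pos]; omega)
  have h3 := resultant_deriv (f := q) (by rw [← natDegree_pos_iff_degree_pos]; omega)
  rw [hpq.leadingCoeff, mul_one, hdeg] at h1
  rw [hp.leadingCoeff, mul_one] at h2
  rw [hq.leadingCoeff, mul_one] at h3
  have h4 : resultant (p * q) (p * q).derivative (p.natDegree + q.natDegree)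
      (p.natDegree + q.natDegree - 1) =
      resultant p (p * q).derivative p.natDegree (p.natDegree + q.natDegree - 1) *
      resultant q (p * q).derivative q.natDegree (p.natDegree + q.natDegree - 1) :=
    resultant_mul_left _ _ _ _ (by
      have := natDegree_derivative_le (p * q)
      rw [hdeg] at this
      exact this)
  have h5 : resultant p (p * q).derivative p.natDegree (p.natDegree + q.natDegree - 1) =
      resultant p p.derivative p.natDegree (p.natDegree - 1) *
        resultant p q p.natDegree q.natDegree := by
    rw [derivative_mul, resultant_add_mul_right _ _ _ _ _ (by rw [hq1]; omega) le_rfl]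
    have : p.natDegree + q.natDegree - 1 = p.derivative.natDegree + q.natDegree := by
      rw [hp1]; omega
    rw [this, resultant_mul_right _ _ _ _ le_rfl, hp1]
  have h6 : resultant q (p * q).derivative q.natDegree (p.natDegree + q.natDegree - 1) =
      resultant q q.derivative q.natDegree (q.natDegree - 1) *
        resultant q p q.natDegree p.natDegree := by
    rw [derivative_mul, add_comm (derivative p * q), mul_comm (derivative p) q,
      resultant_add_mul_right _ _ _ _ _ (by rw [hp1]; omega) le_rfl, mul_comm p (derivative q)]
    have : p.natDegree + q.natDegree - 1 = q.derivative.natDegree + p.natDegree := by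
      rw [hq1]; omega
    rw [this, resultant_mul_right _ _ _ _ le_rfl, hq1]
  rw [h4, h5, h6, h2, h3, resultant_comm q p] at h1
  set A := (-1 : R) ^ (p.natDegree * (p.natDegree - 1) / 2)
  set B := (-1 : R) ^ (q.natDegree * (q.natDegree - 1) / 2)
  set D := (-1 : R) ^ (q.natDegree * p.natDegree)
  set E := (-1 : R) ^ ((p.natDegree + q.natDegree) * (p.natDegree + q.natDegree - 1) / 2)
  have hA : IsUnit A := (isUnit_one.neg).pow _
  have hB : IsUnit B := (isUnit_one.neg).pow _
  have hD : IsUnit D := (isUnit_one.neg).pow _
  have hE : IsUnit E := (isUnit_one.neg).pow _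
  have h7 : E * (p * q).discr = (A * B * D) *
      (p.discr * q.discr * resultant p q p.natDegree q.natDegree ^ 2) := by
    rw [← h1]; ring
  have h8 : Associated (E * (p * q).discr) (p * q).discr :=
    associated_unit_mul_left _ _ hE
  have h9 : Associated ((A * B * D) *
      (p.discr * q.discr * resultant p q p.natDegree q.natDegree ^ 2))
      (p.discr * q.discr * resultant p q p.natDegree q.natDegree ^ 2) :=
    associated_unit_mul_left _ _ ((hA.mul hB).mul hD)
  rw [← h7] at h9
  exact h8.symm.trans h9

/-- The cubic `X³ + a X + b`. -/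
noncomputable def cub {R : Type} [CommRing R] (a b : R) : R[X] := X ^ 3 + C a * X + C b

theorem cub_natDegree {R : Type} [CommRing R] [Nontrivial R] (a b : R) :
    (cub a b).natDegree = 3 := by
  unfold cub; compute_degree!

theorem cub_monic {R : Type} [CommRing R] [Nontrivial R] (a b : R) : (cub a b).Monic := by
  unfold cub; monicity!

theorem cub_derivative {R : Type} [CommRing R] (a b : R) :
    (cub a b).derivative = C 3 * X ^ 2 + C a := by
  unfold cub
  simp only [derivative_add, derivative_X_pow, derivative_mul, derivative_C, derivative_X,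
    zero_mul, zero_add, mul_one, add_zero]
  norm_num

theorem cub_discr {R : Type} [CommRing R] [Nontrivial R] (a b : R) :
    (cub a b).discr = -4 * a ^ 3 - 27 * b ^ 2 := by
  have h := cub_natDegree a b
  rw [discr_of_degree_eq_three (by
    rw [degree_eq_natDegree (cub_monic a b).ne_zero, h]; rfl)]
  have h0 : (cub a b).coeff 0 = b := by unfold cub; simp [coeff_X]
  have h1 : (cub a b).coeff 1 = a := by unfold cub; simp [coeff_X, coeff_C]
  have h2 : (cub a b).coeff 2 = 0 := by unfold cub; simp [coeff_X, coeff_C, coeff_X_pow]
  have h3 : (cub a b).coeff 3 = 1 := by unfold cub; simp [coeff_X, coeff_C]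
  rw [h0, h1, h2, h3]
  ring

/-- The discriminant of `(X³ + a X + b) (X³ + a X + c)`. -/
theorem discr_cub_mul {R : Type} [CommRing R] [IsDomain R] [CharZero R] (a b c : R) :
    Associated (cub a b * cub a c).discr
      ((-4 * a ^ 3 - 27 * b ^ 2) * (-4 * a ^ 3 - 27 * c ^ 2) * (c - b) ^ 6) := by
  have hd : ∀ e : R, (cub a e).derivative.natDegree = (cub a e).natDegree - 1 := by
    intro e
    rw [cub_natDegree, cub_derivative]
    have : (3 : R) ≠ 0 := by norm_num
    compute_degree!
  have h1 := discr_mul (cub_monic a b) (cub_monic a c) (by rw [cub_natDegree]; norm_num)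
    (by rw [cub_natDegree]; norm_num) (hd b) (hd c)
  rw [cub_discr, cub_discr, cub_natDegree, cub_natDegree] at h1
  have h2 : resultant (cub a b) (cub a c) 3 3 = (c - b) ^ 3 := by
    have h3 : cub a c = C (c - b) + cub a b * 1 := by
      unfold cub; rw [C_sub]; ring
    rw [h3, resultant_add_mul_right _ _ _ _ _ (by simp) (cub_natDegree a b).le,
      resultant_C_right]
    have : (cub a b).coeff 3 = 1 := by unfold cub; simp [coeff_X, coeff_C]
    rw [this]; ring
  rw [h2] at h1
  have h4 : ((c - b) ^ 3) ^ 2 = (c - b) ^ 6 := by ring
  rw [h4] at h1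
  exact h1

end Pool.Agent.Helper38.GQ
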