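import Pool.Agent.Helper38.GP.Stmt

/-! The example in codimension `2`. -/

namespace Pool.Agent.Helper38.GQ

open MvPowerSeries Pool.Agent.Helper38.EQ Pool.Agent.Helper38.GP

/-- `f = z³ - 3 x¹² z - 2 x² y²`; the coordinates are `z = X 0`, `x = X 1`, `y = X 2`, `t = X 3`. -/
noncomputable def qf (K : Type) [Field K] : MvPowerSeries (Fin 4) K :=
  X 0 ^ 3 - 3 * X 1 ^ 12 * X 0 - 2 * X 1 ^ 2 * X 2 ^ 2

/-- `g = z³ - 3 x¹² z - 2 x¹¹ y + 2 t x²⁰`. -/
noncomputable def qg (K : Type) [Field K] : MvPowerSeries (Fin 4) K :=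
  X 0 ^ 3 - 3 * X 1 ^ 12 * X 0 - 2 * X 1 ^ 11 * X 2 + 2 * X 3 * X 1 ^ 20

/-- The equation of `V`. -/
noncomputable def qF (K : Type) [Field K] : MvPowerSeries (Fin 4) K := qf K * qg K

/-- The ideal of `W`: the line `z = x = y = 0`. -/
noncomputable def qI (K : Type) [Field K] : Ideal (MvPowerSeries (Fin 4) K) :=
  Ideal.span {X 0, X 1, X 2}

end Pool.Agent.Helper38.GQ
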