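import Mathlib

/-! A distinguished polynomial which is separable over the fraction field generates a radical ideal
of the ring of power series. -/

namespace Pool.Agent.Helper38.GQ

open Polynomial

theorem dvd_of_dvd_pow {A : Type} [CommRing A] [IsDomain A] [IsLocalRing A]
    [IsAdicComplete (IsLocalRing.maximalIdeal A) A] {F : A[X]} (hmon : F.Monic)
    (hF : F.IsDistinguishedAt (IsLocalRing.maximalIdeal A))
    (hsep : (F.map (algebraMap A (FractionRing A))).Separable)
    {h : PowerSeries A} {N : ℕ} (hd : (F : PowerSeries A) ∣ h ^ N) :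
    (F : PowerSeries A) ∣ h := by
  classical
  have hW : (F : PowerSeries A).IsWeierstrassDivisorAt (IsLocalRing.maximalIdeal A) :=
    hF.isWeierstrassDivisorAt (Ideal.IsPrime.ne_top')
  have hord : (((F : PowerSeries A).map
      (Ideal.Quotient.mk (IsLocalRing.maximalIdeal A))).order.toNat : WithBot ℕ) = F.degree := by
    have h1 : (F : PowerSeries A).map (Ideal.Quotient.mk (IsLocalRing.maximalIdeal A)) =
        PowerSeries.X ^ F.natDegree := by
      rw [← Polynomial.polynomial_map_coe, hF.map_eq_X_pow, Polynomial.coe_pow, Polynomial.coe_X]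
    rw [h1, PowerSeries.order_X_pow, degree_eq_natDegree hmon.ne_zero]
    rfl
  obtain ⟨hr1, hr2⟩ := hW.isWeierstrassDivisionAt_div_mod h
  set q := hW.div h
  set r := hW.mod h
  have hrdeg : r.degree < F.degree := by
    rw [← hord]
    exact hr1
  -- `F` divides `r ^ N` as a power series
  have h2 : (F : PowerSeries A) ∣ ((r ^ N : A[X]) : PowerSeries A) := by
    have h3 : (F : PowerSeries A) ∣ h ^ N - (r : PowerSeries A) ^ N := by
      refine Dvd.dvd.trans ?_ (sub_dvd_pow_sub_pow h (r : PowerSeries A) N)
      exact ⟨q, by rw [hr2]; ring⟩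
    rw [Polynomial.coe_pow]
    exact (dvd_sub_right hd).1 h3
  -- as a polynomial
  have h4 : F ∣ r ^ N := by
    have h5 := modByMonic_add_div (r ^ N) F
    have h6 : (F : PowerSeries A) ∣ ((r ^ N %ₘ F : A[X]) : PowerSeries A) := by
      have h7 : ((r ^ N %ₘ F : A[X]) : PowerSeries A) =
          ((r ^ N : A[X]) : PowerSeries A) - (F : PowerSeries A) * ((r ^ N /ₘ F : A[X])) := by
        rw [← Polynomial.coe_mul]
        have h5' : ((r ^ N : A[X]) : PowerSeries A) = ((r ^ N %ₘ F : A[X]) : PowerSeries A) +
            ((F * (r ^ N /ₘ F) : A[X]) : PowerSeries A) := by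
          rw [← Polynomial.coe_add, h5]
        rw [h5']
        ring
      rw [h7]
      exact dvd_sub h2 (dvd_mul_right _ _)
    obtain ⟨c, hc⟩ := h6
    have hdeg := degree_modByMonic_lt (r ^ N) hmon
    have h8 := hW.eq_of_mul_add_eq_mul_add (q := 0) (q' := c) (r := r ^ N %ₘ F) (r' := 0)
      (by rw [hord]; exact hdeg) (by
        rw [hord, degree_zero]
        exact bot_lt_iff_ne_bot.2 (degree_ne_bot.2 hmon.ne_zero)) (by
        rw [mul_zero, zero_add, hc, Polynomial.coe_zero, add_zero])
    exact (modByMonic_eq_zero_iff_dvd hmon).1 h8.2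
  have h9 : F.map (algebraMap A (FractionRing A)) ∣ (r.map (algebraMap A (FractionRing A))) ^ N := by
    rw [← Polynomial.map_pow]
    exact Polynomial.map_dvd _ h4
  have h10 : F.map (algebraMap A (FractionRing A)) ∣ r.map (algebraMap A (FractionRing A)) :=
    hsep.squarefree.isRadical N _ h9
  have h11 : r.map (algebraMap A (FractionRing A)) = 0 := by
    by_contra hne
    have h12 := degree_le_of_dvd h10 hne
    rw [hmon.degree_map] at h12
    exact absurd (lt_of_le_of_lt (h12.trans degree_map_le) hrdeg) (lt_irrefl _)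
  have h13 : r = 0 := by
    rwa [Polynomial.map_eq_zero_iff (IsFractionRing.injective A (FractionRing A))] at h11
  refine ⟨q, ?_⟩
  rw [h13, Polynomial.coe_zero, add_zero] at hr2
  exact hr2

end Pool.Agent.Helper38.GQ
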