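import Pool.Agent.Helper38.GP.ExProps
import Pool.Agent.Helper38.GQ.Rad
import Pool.Agent.Helper38.EQ.AdicComplete
import Pool.Agent.Helper49.R2.Example

/-! Elementary properties of the union of four cones. -/

namespace Pool.Agent.Helper49.R2

open MvPowerSeries Pool.Agent.Helper38.EQ Pool.Agent.Helper38.GP

theorem exF_convergent : IsConvergent (exF ℂ) := by
  classical
  have hX : ∀ i : Fin 4, (X i : MvPowerSeries (Fin 4) ℂ) ∈
      (MvPolynomial.coeToMvPowerSeries.ringHom (σ := Fin 4) (R := ℂ)).range := fun i =>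
    ⟨MvPolynomial.X i, MvPolynomial.coe_X i⟩
  have hmem : exF ℂ ∈ (MvPolynomial.coeToMvPowerSeries.ringHom (σ := Fin 4) (R := ℂ)).range := by
    unfold exF
    refine prod_mem fun i _ => sub_mem (pow_mem (hX 0) 2) ?_
    have h2 : ∀ n : ℕ, (OfNat.ofNat (n + 2) : MvPowerSeries (Fin 4) ℂ) ∈
        (MvPolynomial.coeToMvPowerSeries.ringHom (σ := Fin 4) (R := ℂ)).range := fun n =>
      ofNat_mem _ (n + 2)
    fin_cases i
    · exact add_mem (mul_mem (hX 1) (hX 2)) (pow_mem (hX 1) 4)
    · exact add_mem (mul_mem (mul_mem (h2 0) (hX 1)) (hX 2)) (pow_mem (hX 1) 4)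
    · exact add_mem (mul_mem (mul_mem (h2 1) (hX 1)) (hX 2))
        (mul_mem (sub_mem (pow_mem (add_mem (one_mem _) (hX 3)) 2) (h2 1)) (pow_mem (hX 1) 4))
    · exact add_mem (mul_mem (mul_mem (h2 3) (hX 1)) (hX 2))
        (mul_mem (sub_mem (pow_mem (add_mem (one_mem _) (hX 3)) 2) (h2 3)) (pow_mem (hX 1) 4))
  obtain ⟨P, hP⟩ := hmem
  rw [← hP]
  refine isConvergent_of_finite ?_
  refine Set.Finite.subset P.support.finite_toSet ?_
  intro ν hν
  rw [Finset.mem_coe, MvPolynomial.mem_support_iff]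
  exact hν

/-- the indices of the equations of `W` -/
private def Props_idx : Fin 3 → Fin 4 := ![0, 1, 2]

private theorem Props_inj : Function.Injective Props_idx := by decide

theorem exI_smooth {K : Type} [Field K] : IsSmoothGerm 3 (exI K) := by
  refine ⟨fun i => X (Props_idx i), ⟨fun i => constantCoeff_X _, ?_⟩, ?_⟩
  · have h1 : (fun i => fun j : Fin 4 => coeff (Finsupp.single j 1)
        (X (Props_idx i) : MvPowerSeries (Fin 4) K)) =
        (Pi.basisFun K (Fin 4)) ∘ Props_idx := by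
      classical
      funext i j
      rw [Function.comp_apply, Pi.basisFun_apply, coeff_X]
      by_cases h : j = Props_idx i
      · subst h
        rw [if_pos rfl, Pi.single_eq_same]
      · rw [Pi.single_eq_of_ne h, if_neg]
        intro h2
        exact h (Finsupp.single_left_injective one_ne_zero h2)
    rw [h1]
    exact (Pi.basisFun K (Fin 4)).linearIndependent.comp _ Props_inj
  · unfold exI
    congr 1
    ext x
    simp only [Set.mem_insert_iff, Set.mem_singleton_iff, Set.mem_range]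
    constructor
    · rintro (rfl | rfl | rfl)
      · exact ⟨0, rfl⟩
      · exact ⟨1, rfl⟩
      · exact ⟨2, rfl⟩
    · rintro ⟨i, rfl⟩
      fin_cases i
      · left; rfl
      · right; left; rfl
      · right; right; rfl

theorem exF_sing {K : Type} [Field K] : singIdeal (exF K) ≤ exI K := by
  refine singIdeal_le_of_mem_sq _ _ ?_
  have hX0 : (X 0 : MvPowerSeries (Fin 4) K) ∈ exI K := Ideal.subset_span (by simp)
  have hX1 : (X 1 : MvPowerSeries (Fin 4) K) ∈ exI K := Ideal.subset_span (by simp)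
  have hX2 : (X 2 : MvPowerSeries (Fin 4) K) ∈ exI K := Ideal.subset_span (by simp)
  have h1 : (X 0 ^ 2 - exH K 0 : MvPowerSeries (Fin 4) K) ∈ exI K ^ 2 := by
    refine Ideal.sub_mem _ (Ideal.pow_mem_pow hX0 2) (Ideal.add_mem _ ?_ ?_)
    · rw [pow_two]
      exact Ideal.mul_mem_mul hX1 hX2
    · exact Ideal.pow_le_pow_right (by norm_num) (Ideal.pow_mem_pow hX1 4)
  exact Ideal.mem_of_dvd _ (Finset.dvd_prod_of_mem _ (Finset.mem_univ 0)) h1

/-- the polynomials `h_m`, in the variables `x, y, t` -/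
noncomputable def exh (K : Type) [Field K] : Fin 4 → MvPowerSeries (Fin 3) K :=
  ![X 0 * X 1 + X 0 ^ 4, 2 * X 0 * X 1 + X 0 ^ 4,
    3 * X 0 * X 1 + ((1 + X 2) ^ 2 - 3) * X 0 ^ 4,
    5 * X 0 * X 1 + ((1 + X 2) ^ 2 - 5) * X 0 ^ 4]

/-- the Weierstrass polynomial -/
noncomputable def exW (K : Type) [Field K] : Polynomial (MvPowerSeries (Fin 3) K) :=
  ∏ i, (Polynomial.X ^ 2 - Polynomial.C (exh K i))

theorem exh_mem {K : Type} [Field K] (i : Fin 4) :
    exh K i ∈ IsLocalRing.maximalIdeal (MvPowerSeries (Fin 3) K) := by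
  have hX : (X 0 : MvPowerSeries (Fin 3) K) ∈ IsLocalRing.maximalIdeal (MvPowerSeries (Fin 3) K) := by
    rw [mem_maximalIdeal_iff_constantCoeff, constantCoeff_X]
  have h1 : X 0 ∣ exh K i := by
    fin_cases i
    · exact dvd_add (dvd_mul_right _ _) (dvd_pow_self _ (by norm_num))
    · exact dvd_add ((dvd_mul_left _ _).mul_right _) (dvd_pow_self _ (by norm_num))
    · exact dvd_add ((dvd_mul_left _ _).mul_right _) ((dvd_pow_self _ (by norm_num)).mul_left _)
    · exact dvd_add ((dvd_mul_left _ _).mul_right _) ((dvd_pow_self _ (by norm_num)).mul_left _)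
  exact Ideal.mem_of_dvd _ h1 hX

/-- the coefficient of `x y` in `h_m` is `a_m` -/
theorem exh_coeff {K : Type} [Field K] (i : Fin 4) :
    coeff (Finsupp.single 0 1 + Finsupp.single 1 1) (exh K i) = (![1, 2, 3, 5] : Fin 4 → K) i := by
  classical
  have h1 : ∀ (a : K) (g : MvPowerSeries (Fin 3) K),
      coeff (Finsupp.single 0 1 + Finsupp.single 1 1) (C a * (X 0 * X 1) + g * X 0 ^ 4) = a := by
    intro a g
    have h2 : coeff (Finsupp.single 0 1 + Finsupp.single 1 1 : Fin 3 →₀ ℕ) (g * X 0 ^ 4) = 0 := by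
      refine (X_pow_dvd_iff (s := (0 : Fin 3)) (n := 4)).1 (dvd_mul_left _ _) _ ?_
      simp
    have h3 : (X 0 * X 1 : MvPowerSeries (Fin 3) K) =
        monomial (Finsupp.single 0 1 + Finsupp.single 1 1) 1 := by
      rw [X_def, X_def, monomial_mul_monomial, mul_one]
    rw [map_add, h2, add_zero, coeff_C_mul, h3, coeff_monomial_same, mul_one]
  fin_cases i
  · have : exh K 0 = C 1 * (X 0 * X 1) + 1 * X 0 ^ 4 := by
      show X 0 * X 1 + X 0 ^ 4 = _
      rw [map_one]; ring
    show coeff _ (exh K 0) = 1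
    rw [this, h1]
  · have : exh K 1 = C 2 * (X 0 * X 1) + 1 * X 0 ^ 4 := by
      show 2 * X 0 * X 1 + X 0 ^ 4 = _
      rw [map_ofNat]; ring
    show coeff _ (exh K 1) = 2
    rw [this, h1]
  · have : exh K 2 = C 3 * (X 0 * X 1) + ((1 + X 2) ^ 2 - 3) * X 0 ^ 4 := by
      show 3 * X 0 * X 1 + ((1 + X 2) ^ 2 - 3) * X 0 ^ 4 = _
      rw [map_ofNat]; ring
    show coeff _ (exh K 2) = 3
    rw [this, h1]
  · have : exh K 3 = C 5 * (X 0 * X 1) + ((1 + X 2) ^ 2 - 5) * X 0 ^ 4 := by
      show 5 * X 0 * X 1 + ((1 + X 2) ^ 2 - 5) * X 0 ^ 4 = _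
      rw [map_ofNat]; ring
    show coeff _ (exh K 3) = 5
    rw [this, h1]

theorem exh_ne_zero {K : Type} [Field K] [CharZero K] (i : Fin 4) : exh K i ≠ 0 := by
  intro h
  have h1 := exh_coeff (K := K) i
  rw [h, map_zero] at h1
  fin_cases i <;> simp at h1

theorem exh_injective {K : Type} [Field K] [CharZero K] : Function.Injective (exh K) := by
  intro i j h
  have h1 := exh_coeff (K := K) i
  rw [h, exh_coeff] at h1
  fin_cases i <;> fin_cases j <;> first | rfl | (exfalso; norm_num at h1)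

theorem exW_monic {K : Type} [Field K] : (exW K).Monic :=
  Polynomial.monic_prod_of_monic _ _ fun _ _ =>
    Polynomial.monic_X_pow_sub_C _ two_ne_zero

theorem exW_sep {K : Type} [Field K] [CharZero K] :
    ((exW K).map (algebraMap (MvPowerSeries (Fin 3) K)
      (FractionRing (MvPowerSeries (Fin 3) K)))).Separable := by
  have hinj := IsFractionRing.injective (MvPowerSeries (Fin 3) K)
    (FractionRing (MvPowerSeries (Fin 3) K))
  unfold exW
  rw [Polynomial.map_prod]
  have h1 : ∀ i : Fin 4, Polynomial.map (algebraMap (MvPowerSeries (Fin 3) K)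
      (FractionRing (MvPowerSeries (Fin 3) K))) (Polynomial.X ^ 2 - Polynomial.C (exh K i)) =
      Polynomial.X ^ 2 - Polynomial.C (algebraMap _ _ (exh K i)) := by
    intro i
    rw [Polynomial.map_sub, Polynomial.map_pow, Polynomial.map_X, Polynomial.map_C]
  simp only [h1]
  haveI : CharZero (FractionRing (MvPowerSeries (Fin 3) K)) := by
    have : CharZero (MvPowerSeries (Fin 3) K) :=
      charZero_of_injective_algebraMap (MvPowerSeries.C_injective)
    exact charZero_of_injective_algebraMap hinj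
  refine Polynomial.separable_prod ?_ ?_
  · intro i j hij
    have hne : algebraMap (MvPowerSeries (Fin 3) K) (FractionRing (MvPowerSeries (Fin 3) K))
        (exh K i) - algebraMap _ _ (exh K j) ≠ 0 := by
      rw [sub_ne_zero]
      exact fun h => hij (exh_injective (hinj h))
    refine ⟨-Polynomial.C (algebraMap _ _ (exh K i) - algebraMap _ _ (exh K j))⁻¹,
      Polynomial.C (algebraMap _ _ (exh K i) - algebraMap _ _ (exh K j))⁻¹, ?_⟩
    have h2 : -Polynomial.C (algebraMap _ _ (exh K i) - algebraMap _ _ (exh K j) :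
          FractionRing (MvPowerSeries (Fin 3) K))⁻¹ *
        (Polynomial.X ^ 2 - Polynomial.C (algebraMap _ _ (exh K i))) +
        Polynomial.C (algebraMap _ _ (exh K i) - algebraMap _ _ (exh K j))⁻¹ *
        (Polynomial.X ^ 2 - Polynomial.C (algebraMap _ _ (exh K j))) =
        Polynomial.C ((algebraMap _ _ (exh K i) - algebraMap _ _ (exh K j))⁻¹ *
          (algebraMap _ _ (exh K i) - algebraMap _ _ (exh K j))) := by
      rw [Polynomial.C_mul, Polynomial.C_sub]
      ring
    rw [h2, inv_mul_cancel₀ hne, Polynomial.C_1]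
  · intro i
    refine Polynomial.separable_X_pow_sub_C _ (by norm_num) ?_
    rw [Ne, map_eq_zero_iff _ hinj]
    exact exh_ne_zero i

/-- `exF` in the coordinates `(x, y, t)`, `z` -/
theorem finSuccEquiv_exF {K : Type} [Field K] :
    finSuccEquiv K 3 (exF K) = (exW K : PowerSeries (MvPowerSeries (Fin 3) K)) := by
  have h0 : finSuccEquiv K 3 (X 0) = PowerSeries.X := finSuccEquiv_X_zero
  have h1 : finSuccEquiv K 3 (X 1) = PowerSeries.C (X 0) := finSuccEquiv_X_succ 0
  have h2 : finSuccEquiv K 3 (X 2) = PowerSeries.C (X 1) := finSuccEquiv_X_succ 1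
  have h3 : finSuccEquiv K 3 (X 3) = PowerSeries.C (X 2) := finSuccEquiv_X_succ 2
  have h4 : ∀ i, finSuccEquiv K 3 (exH K i) = PowerSeries.C (exh K i) := by
    intro i
    fin_cases i
    · show finSuccEquiv K 3 (X 1 * X 2 + X 1 ^ 4) = PowerSeries.C (X 0 * X 1 + X 0 ^ 4)
      simp only [map_add, map_mul, map_pow, h1, h2]
    · show finSuccEquiv K 3 (2 * X 1 * X 2 + X 1 ^ 4) = PowerSeries.C (2 * X 0 * X 1 + X 0 ^ 4)
      simp only [map_add, map_mul, map_pow, h1, h2, map_ofNat]
    · show finSuccEquiv K 3 (3 * X 1 * X 2 + ((1 + X 3) ^ 2 - 3) * X 1 ^ 4) =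
        PowerSeries.C (3 * X 0 * X 1 + ((1 + X 2) ^ 2 - 3) * X 0 ^ 4)
      simp only [map_add, map_sub, map_mul, map_pow, h1, h2, h3, map_ofNat, map_one]
    · show finSuccEquiv K 3 (5 * X 1 * X 2 + ((1 + X 3) ^ 2 - 5) * X 1 ^ 4) =
        PowerSeries.C (5 * X 0 * X 1 + ((1 + X 2) ^ 2 - 5) * X 0 ^ 4)
      simp only [map_add, map_sub, map_mul, map_pow, h1, h2, h3, map_ofNat, map_one]
  unfold exF exW
  rw [map_prod, ← Polynomial.coeToPowerSeries.ringHom_apply, map_prod]
  refine Finset.prod_congr rfl fun i _ => ?_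
  rw [map_sub, map_sub, map_pow, map_pow, h0, h4, Polynomial.coeToPowerSeries.ringHom_apply,
    Polynomial.coeToPowerSeries.ringHom_apply, Polynomial.coe_X, Polynomial.coe_C]

theorem exW_dist {K : Type} [Field K] :
    (exW K).IsDistinguishedAt (IsLocalRing.maximalIdeal (MvPowerSeries (Fin 3) K)) := by
  have h1 : (exW K).map (Ideal.Quotient.mk (IsLocalRing.maximalIdeal (MvPowerSeries (Fin 3) K))) =
      Polynomial.X ^ 8 := by
    unfold exW
    rw [Polynomial.map_prod]
    have h2 : ∀ i : Fin 4, Polynomial.map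
        (Ideal.Quotient.mk (IsLocalRing.maximalIdeal (MvPowerSeries (Fin 3) K)))
        (Polynomial.X ^ 2 - Polynomial.C (exh K i)) = Polynomial.X ^ 2 := by
      intro i
      rw [Polynomial.map_sub, Polynomial.map_pow, Polynomial.map_X, Polynomial.map_C,
        Ideal.Quotient.eq_zero_iff_mem.2 (exh_mem i), Polynomial.C_0, sub_zero]
    simp only [h2]
    rw [Finset.prod_const, Finset.card_univ, Fintype.card_fin, ← pow_mul]
  have hdeg : (exW K).natDegree = 8 := by
    have h3 := exW_monic (K := K).natDegree_map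
      (Ideal.Quotient.mk (IsLocalRing.maximalIdeal (MvPowerSeries (Fin 3) K)))
    rw [h1, Polynomial.natDegree_X_pow] at h3
    exact h3.symm
  refine ⟨⟨fun {n} hn => ?_⟩, exW_monic⟩
  rw [hdeg] at hn
  rw [← Ideal.Quotient.eq_zero_iff_mem, ← Polynomial.coeff_map, h1, Polynomial.coeff_X_pow,
    if_neg hn.ne]

theorem exF_radical {K : Type} [Field K] [CharZero K] : (Ideal.span {exF K}).IsRadical := by
  intro y hy
  rw [Ideal.mem_radical_iff] at hy
  obtain ⟨N, hN⟩ := hy
  rw [Ideal.mem_span_singleton] at hN ⊢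
  have h1 := map_dvd (finSuccEquiv K 3) hN
  rw [finSuccEquiv_exF, map_pow] at h1
  haveI : IsAdicComplete (IsLocalRing.maximalIdeal (MvPowerSeries (Fin 3) K))
      (MvPowerSeries (Fin 3) K) := isAdicComplete_mvPowerSeries 3 K
  have h2 : (exW K : PowerSeries (MvPowerSeries (Fin 3) K)) ∣ finSuccEquiv K 3 y :=
    Pool.Agent.Helper38.GQ.dvd_of_dvd_pow exW_monic exW_dist exW_sep h1
  rw [← finSuccEquiv_exF] at h2
  have h3 := map_dvd (finSuccEquiv K 3).symm h2
  rwa [AlgEquiv.symm_apply_apply, AlgEquiv.symm_apply_apply] at h3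

end Pool.Agent.Helper49.R2
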