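import Pool.Agent.Helper38.GP.PosLevels

/-! Unions of a plane and graphs with differences powers of `x`. -/

namespace Pool.Agent.Helper38.GQ

open MvPowerSeries Pool.Agent.Helper38.EQ Pool.Agent.Helper38.GP
open Pool.Agent.Helper38.ED (LI LI_iff prime_of_notMem_sq Rad)

variable {K : Type} [Field K]

/-- the sheets `x = 0` and `y = a i` -/
noncomputable def she {m : ℕ} (a : Fin m → MvPowerSeries (Fin 3) K) :
    Fin (m + 1) → MvPowerSeries (Fin 3) K :=
  Fin.cons (X 0) fun i => X 1 - X 0 ^ 2 * a i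

private theorem she_X (i j : Fin 3) : coeff (Finsupp.single j 1) (X i : MvPowerSeries (Fin 3) K) =
    if j = i then 1 else 0 := by
  classical
  rw [coeff_X]
  by_cases h : j = i
  · rw [h, if_pos rfl, if_pos rfl]
  · rw [if_neg h, if_neg]
    intro h1
    exact h (Finsupp.single_left_injective one_ne_zero h1)

private theorem LI_xy {i j : Fin 3} (hij : i ≠ j) :
    LI ![(X i : MvPowerSeries (Fin 3) K), X j] := by
  refine ⟨fun k => ?_, ?_⟩
  · fin_cases k
    · exact constantCoeff_X _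
    · exact constantCoeff_X _
  · rw [Fintype.linearIndependent_iff]
    intro g hg
    have h1 : ∀ k : Fin 3, g 0 * (if k = i then 1 else 0) + g 1 * (if k = j then 1 else 0) =
        (0 : K) := by
      intro k
      have h2 := congrFun hg k
      rw [Finset.sum_apply, Fin.sum_univ_two] at h2
      rw [← she_X, ← she_X]
      exact h2
    have h2 := h1 i
    have h3 := h1 j
    rw [if_pos rfl, if_neg hij, mul_one, mul_zero, add_zero] at h2
    rw [if_pos rfl, if_neg hij.symm, mul_one, mul_zero, zero_add] at h3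
    intro k
    fin_cases k
    · exact h2
    · exact h3

private theorem LI_pair (b : MvPowerSeries (Fin 3) K) :
    LI ![X 1 - X 0 ^ 2 * b, X 0] := by
  refine (LI_xy (K := K) (i := 1) (j := 0) (by decide)).congr fun k => ?_
  have hX : (X 0 : MvPowerSeries (Fin 3) K) ∈ IsLocalRing.maximalIdeal (MvPowerSeries (Fin 3) K) :=
    (LI_xy (K := K) (i := 1) (j := 0) (by decide)).mem 1
  fin_cases k
  · show X 1 - X 0 ^ 2 * b - X 1 ∈ _
    have : X 1 - X 0 ^ 2 * b - X 1 = -(X 0 ^ 2 * b) := by ring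
    rw [this, neg_mem_iff]
    exact Ideal.mul_mem_right _ _ (Ideal.pow_mem_pow hX 2)
  · show X 0 - X 0 ∈ _
    rw [sub_self]
    exact Ideal.zero_mem _

private theorem LI_pair' : LI ![(X 0 : MvPowerSeries (Fin 3) K), X 1] := LI_xy (by decide)

theorem she_smooth {m : ℕ} (a : Fin m → MvPowerSeries (Fin 3) K) (i : Fin (m + 1)) :
    she a i ∈ IsLocalRing.maximalIdeal (MvPowerSeries (Fin 3) K) ∧
      she a i ∉ IsLocalRing.maximalIdeal (MvPowerSeries (Fin 3) K) ^ 2 := by
  refine Fin.cases ?_ (fun i => ?_) i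
  · have := LI_pair' (K := K)
    exact ⟨this.mem 0, this.notMem_sq 0⟩
  · have := LI_pair (a i)
    exact ⟨this.mem 0, this.notMem_sq 0⟩

theorem she_prime {m : ℕ} (a : Fin m → MvPowerSeries (Fin 3) K) (i : Fin (m + 1)) :
    Prime (she a i) := prime_of_notMem_sq (she_smooth a i).1 (she_smooth a i).2

theorem she_not_dvd {m : ℕ} (a : Fin m → MvPowerSeries (Fin 3) K)
    (ha : ∀ i j, i ≠ j → ∃ k, Associated (X 0 ^ 2 * a i - X 0 ^ 2 * a j) (X 0 ^ k))
    {i j : Fin (m + 1)} (hij : i ≠ j) : ¬ she a i ∣ she a j := by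
  intro h
  induction i using Fin.cases with
  | zero =>
    obtain ⟨j', rfl⟩ := Fin.exists_succ_eq.2 hij.symm
    have h1 : (X 0 : MvPowerSeries (Fin 3) K) ∣ X 1 - X 0 ^ 2 * a j' := h
    have h2 : (X 0 : MvPowerSeries (Fin 3) K) ∣ X 1 :=
      (dvd_sub_left ((dvd_pow_self _ (by norm_num)).mul_right _)).1 h1
    exact (LI_pair' (K := K)).not_dvd h2
  | succ i =>
    have hnot : ¬ (X 1 - X 0 ^ 2 * a i : MvPowerSeries (Fin 3) K) ∣ X 0 := (LI_pair (a i)).not_dvd
    induction j using Fin.cases with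
    | zero => exact hnot h
    | succ j =>
      have hne : i ≠ j := by
        rintro rfl
        exact hij rfl
      obtain ⟨k, hk⟩ := ha i j hne
      have h1 : (X 1 - X 0 ^ 2 * a i : MvPowerSeries (Fin 3) K) ∣
          X 0 ^ 2 * a i - X 0 ^ 2 * a j := by
        have h2 : (X 1 - X 0 ^ 2 * a i : MvPowerSeries (Fin 3) K) ∣ X 1 - X 0 ^ 2 * a j := h
        have h3 := dvd_sub h2 (dvd_refl (X 1 - X 0 ^ 2 * a i : MvPowerSeries (Fin 3) K))
        have h4 : X 1 - X 0 ^ 2 * a j - (X 1 - X 0 ^ 2 * a i) =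
            X 0 ^ 2 * a i - X 0 ^ 2 * a j := by ring
        rwa [h4] at h3
      have hp : Prime (X 1 - X 0 ^ 2 * a i : MvPowerSeries (Fin 3) K) := she_prime a i.succ
      exact hnot (hp.dvd_of_dvd_pow (h1.trans hk.dvd))

theorem equi_graphs [CharZero K] {𝒞 : ProjClass K} (h𝒞 : HasLin 𝒞) {m : ℕ} (hm : 0 < m)
    (a : Fin m → MvPowerSeries (Fin 3) K)
    (ha : ∀ i j, i ≠ j → ∃ k, Associated (X 0 ^ 2 * a i - X 0 ^ 2 * a j) (X 0 ^ k))
    {f : MvPowerSeries (Fin 3) K} (hf : Associated f (∏ i, she a i))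
    {I : Ideal (MvPowerSeries (Fin 3) K)} (hI : CurveIdeal I) (h0 : X 0 ∈ I) (h1 : X 1 ∈ I) :
    Equi 𝒞 1 3 f I := by
  have hsm : ∀ i, she a i ∈ IsLocalRing.maximalIdeal (MvPowerSeries (Fin 3) K) ∧
      she a i ∉ IsLocalRing.maximalIdeal (MvPowerSeries (Fin 3) K) ^ 2 := by
    intro i
    refine Fin.cases ?_ (fun i => ?_) i
    · have := LI_pair' (K := K)
      exact ⟨this.mem 0, this.notMem_sq 0⟩
    · have := LI_pair (a i)
      exact ⟨this.mem 0, this.notMem_sq 0⟩
  have hmI : ∀ i, she a i ∈ I := by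
    intro i
    refine Fin.cases ?_ (fun i => ?_) i
    · exact h0
    · exact Ideal.sub_mem _ h1 (Ideal.mul_mem_right _ _ (Ideal.pow_mem_of_mem _ h0 2 (by norm_num)))
  obtain ⟨p, ht, hp⟩ := exists_lin (she a) hsm
  have hs : ∀ i, Nonempty (Sec p (she a i)) := fun i => exists_sec p _ (hsm i).1 (ht i)
  let s : ∀ i, Sec p (she a i) := fun i => (hs i).some
  have hI' : CurveIdeal (p.img I) := hI.img (hsm 0).1 (hmI 0) (ht 0)
  -- the generators of the ideal of the image
  have hgen : ∀ (i : Fin (m + 1)) (h : MvPowerSeries (Fin 3) K), LI ![she a i, h] → h ∈ I →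
      (s i).pull h ∈ IsLocalRing.maximalIdeal (R1 2 K) ∧
      (s i).pull h ∉ IsLocalRing.maximalIdeal (R1 2 K) ^ 2 ∧
      p.img I = Ideal.span {(s i).pull h} := by
    intro i h hLI hh
    have h2 : LI (fun _ : Fin 1 => (s i).pull h) := by
      refine Sec.LI_pull (s i) (fun _ : Fin 1 => h) ?_
      have : (Fin.cons (she a i) (fun _ : Fin 1 => h) : Fin 2 → _) = ![she a i, h] := by
        ext j
        fin_cases j <;> rfl
      rw [this]
      exact hLI
    have h3 := h2.mem 0
    have h4 := h2.notMem_sq 0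
    exact ⟨h3, h4, hI'.eq_span h3 h4 ((s i).pull_mem_img (hmI i) hh)⟩
  set P := (s 0).pull (X 1) with hP
  obtain ⟨hP1, hP2, hP3⟩ := hgen 0 (X 1) LI_pair' h1
  have hx : ∀ i : Fin m, Associated ((s i.succ).pull (X 0)) P := by
    intro i
    obtain ⟨-, -, h4⟩ := hgen i.succ (X 0) (LI_pair (a i)) h0
    rw [hP3] at h4
    exact (Ideal.span_singleton_eq_span_singleton.1 h4).symm
  have hdisc : IsDisc s P := by
    have hprime : Prime P := prime_of_notMem_sq hP1 hP2
    have h0j : ∀ j : Fin m, (s 0).pull (she a j.succ) = P := by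
      intro j
      have h5 : (s 0).pull (X 0) = 0 := (s 0).pull_self
      show (s 0).pull (X 1 - X 0 ^ 2 * a j) = P
      rw [map_sub, map_mul, map_pow, h5]
      ring
    refine ⟨fun y N h => hprime.dvd_of_dvd_pow h, ?_, ?_⟩
    · intro i j hij
      induction i using Fin.cases with
      | zero =>
        obtain ⟨j', rfl⟩ := Fin.exists_succ_eq.2 (ne_of_gt hij)
        exact ⟨1, by rw [h0j, pow_one]⟩
      | succ i =>
        obtain ⟨j', rfl⟩ := Fin.exists_succ_eq.2 (ne_of_gt (lt_of_le_of_lt (Fin.zero_le _) hij))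
        have hne : i ≠ j' := by
          rintro rfl
          exact lt_irrefl _ hij
        obtain ⟨k, hk⟩ := ha i j' hne
        refine ⟨k, ?_⟩
        have h5 : (s i.succ).pull (she a j'.succ) =
            (s i.succ).pull (X 0 ^ 2 * a i - X 0 ^ 2 * a j') := by
          have h6 : she a j'.succ = she a i.succ + (X 0 ^ 2 * a i - X 0 ^ 2 * a j') := by
            show X 1 - X 0 ^ 2 * a j' = (X 1 - X 0 ^ 2 * a i) + _
            ring
          rw [h6, map_add, (s i.succ).pull_self, zero_add]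
        rw [h5]
        have h7 : Associated ((s i.succ).pull (X 0 ^ 2 * a i - X 0 ^ 2 * a j'))
            ((s i.succ).pull (X 0 ^ k)) := hk.map (s i.succ).pull
        rw [map_pow] at h7
        exact (h7.trans ((hx i).pow_pow)).dvd
    · refine ⟨1, ?_⟩
      rw [pow_one]
      have h8 : P ∣ (s 0).pull (she a (⟨0, hm⟩ : Fin m).succ) := by rw [h0j]
      refine h8.trans ?_
      refine Dvd.dvd.trans ?_ (Finset.dvd_prod_of_mem _ (Finset.mem_univ 0))
      exact Finset.dvd_prod_of_mem (fun j => (s 0).pull (she a j))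
        (Finset.mem_filter.2 ⟨Finset.mem_univ _, Fin.succ_pos _⟩)
  exact equi_of_disc h𝒞 p hp (fun i => (hsm i).1) ht hf (hmI 0) hdisc
    (equi_pos4 (Associated.refl _) hP1 hP2 hI' ((s 0).pull_mem_img (hmI 0) h1))

end Pool.Agent.Helper38.GQ
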