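import Pool.Agent.Helper38.GQ.Sheets
import Pool.Agent.Helper49.R2.Example

/-! Second step: the eleven sheets. -/

namespace Pool.Agent.Helper49.R2

open MvPowerSeries Pool.Agent.Helper38.EQ Pool.Agent.Helper38.GP Pool.Agent.Helper38.GQ
open Pool.Agent.Helper38.ED (LI prime_of_notMem_sq Rad)

/-- The ten functions `w_k`; here `x = X 0`, `y = X 1`, `t = X 2`. -/
noncomputable def wK (K : Type) [Field K] : Fin 10 → MvPowerSeries (Fin 3) K :=
  ![0, 1, -1, -C (1 / 2), C (1 / 3) * (3 - (1 + X 2) ^ 2), C (1 / 5) * (5 - (1 + X 2) ^ 2),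
    C (1 / 2) * (4 - (1 + X 2) ^ 2), C (1 / 4) * (6 - (1 + X 2) ^ 2), 4 - (1 + X 2) ^ 2,
    C (1 / 3) * (6 - (1 + X 2) ^ 2)]

/-- The eleven sheets: `x` and `y - w_k x³`. -/
noncomputable def eK (K : Type) [Field K] : Fin 11 → MvPowerSeries (Fin 3) K :=
  she fun k => X 0 * wK K k

theorem wK_const (K : Type) [Field K] (k : Fin 10) : constantCoeff (wK K k) =
    (![0, 1, -1, -(1 / 2), 1 / 3 * 2, 1 / 5 * 4, 1 / 2 * 3, 1 / 4 * 5, 3, 1 / 3 * 5] :
      Fin 10 → K) k := by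
  have h1 : constantCoeff ((1 + X 2) ^ 2 : MvPowerSeries (Fin 3) K) = 1 := by
    rw [map_pow, map_add, map_one, constantCoeff_X, add_zero, one_pow]
  fin_cases k
  · exact map_zero _
  · exact map_one _
  · show constantCoeff (-1 : MvPowerSeries (Fin 3) K) = -1
    rw [map_neg, map_one]
  · show constantCoeff (-C (1 / 2) : MvPowerSeries (Fin 3) K) = -(1 / 2)
    rw [map_neg, constantCoeff_C]
  · show constantCoeff (C (1 / 3) * (3 - (1 + X 2) ^ 2) : MvPowerSeries (Fin 3) K) = 1 / 3 * 2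
    rw [map_mul, map_sub, h1, constantCoeff_C, map_ofNat]
    norm_num
  · show constantCoeff (C (1 / 5) * (5 - (1 + X 2) ^ 2) : MvPowerSeries (Fin 3) K) = 1 / 5 * 4
    rw [map_mul, map_sub, h1, constantCoeff_C, map_ofNat]
    norm_num
  · show constantCoeff (C (1 / 2) * (4 - (1 + X 2) ^ 2) : MvPowerSeries (Fin 3) K) = 1 / 2 * 3
    rw [map_mul, map_sub, h1, constantCoeff_C, map_ofNat]
    norm_num
  · show constantCoeff (C (1 / 4) * (6 - (1 + X 2) ^ 2) : MvPowerSeries (Fin 3) K) = 1 / 4 * 5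
    rw [map_mul, map_sub, h1, constantCoeff_C, map_ofNat]
    norm_num
  · show constantCoeff (4 - (1 + X 2) ^ 2 : MvPowerSeries (Fin 3) K) = 3
    rw [map_sub, h1, map_ofNat]
    norm_num
  · show constantCoeff (C (1 / 3) * (6 - (1 + X 2) ^ 2) : MvPowerSeries (Fin 3) K) = 1 / 3 * 5
    rw [map_mul, map_sub, h1, constantCoeff_C, map_ofNat]
    norm_num

theorem wK_unit (K : Type) [Field K] [CharZero K] {i j : Fin 10} (hij : i ≠ j) :
    IsUnit (wK K i - wK K j) := by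
  rw [isUnit_iff_constantCoeff, isUnit_iff_ne_zero, map_sub, wK_const, wK_const]
  fin_cases i <;> fin_cases j <;> first | exact absurd rfl hij | norm_num

theorem wK_assoc (K : Type) [Field K] [CharZero K] (i j : Fin 10) (hij : i ≠ j) :
    ∃ k, Associated (X 0 ^ 2 * (X 0 * wK K i) - X 0 ^ 2 * (X 0 * wK K j)) (X 0 ^ k) := by
  refine ⟨3, ?_⟩
  have : X 0 ^ 2 * (X 0 * wK K i) - X 0 ^ 2 * (X 0 * wK K j) =
      X 0 ^ 3 * (wK K i - wK K j) := by ring
  rw [this]
  exact associated_mul_unit_left _ _ (wK_unit K hij)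

theorem eK_prime (K : Type) [Field K] (i : Fin 11) : Prime (eK K i) := she_prime _ i

theorem eK_not_dvd (K : Type) [Field K] [CharZero K] {i j : Fin 11} (hij : i ≠ j) :
    ¬ eK K i ∣ eK K j := she_not_dvd _ (wK_assoc K) hij

theorem eK_rad (K : Type) [Field K] [CharZero K] : Rad (∏ i, eK K i) :=
  Rad.prod _ (eK_prime K) fun _ _ hij => eK_not_dvd K hij

theorem equi_D {K : Type} [Field K] [CharZero K] {𝒞 : ProjClass K} (h𝒞 : HasLin 𝒞)
    {f : MvPowerSeries (Fin 3) K} (hf : Associated f (∏ i, eK K i))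
    {I : Ideal (MvPowerSeries (Fin 3) K)} (hI : CurveIdeal I) (h0 : X 0 ∈ I) (h1 : X 1 ∈ I) :
    Equi 𝒞 1 3 f I := by
  exact equi_graphs h𝒞 (by norm_num) (fun k => X 0 * wK K k) (wK_assoc K) hf hI h0 h1

end Pool.Agent.Helper49.R2
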